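import Mathlib

set_option autoImplicit false
open MeasureTheory

namespace Pool.Agent.Results.MP_97409a_pr.TwoServer

/-- one Kiefer-Wolfowitz step for two servers: input `(w, (s, t))` -/
def kw (x : (ℝ × ℝ) × (ℝ × ℝ)) : ℝ × ℝ :=
  (min (max (x.1.1 + x.2.1 - x.2.2) 0) (max (x.1.2 - x.2.2) 0),
   max (max (x.1.1 + x.2.1 - x.2.2) 0) (max (x.1.2 - x.2.2) 0))

/-- `π` is a stationary law of the workload vector for service law `μS`, interarrival law `μT` -/
def Stationary (μS μT : Measure ℝ) (π : Measure (ℝ × ℝ)) : Prop :=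
  IsProbabilityMeasure π ∧ (π.prod (μS.prod μT)).map kw = π

theorem kw_meas : Measurable kw := by unfold kw; fun_prop

noncomputable def mS : Measure ℝ :=
  (1 / 2 : ENNReal) • Measure.dirac (1 / 2) + (1 / 2 : ENNReal) • Measure.dirac 2

instance : IsProbabilityMeasure mS := ⟨by simp [mS, ENNReal.inv_two_add_inv_two]⟩

theorem step_apply (π : Measure (ℝ × ℝ)) [IsProbabilityMeasure π] (A : Set (ℝ × ℝ))
    (hA : MeasurableSet A) : (π.prod (mS.prod (Measure.dirac 1))).map kw A
      = 1 / 2 * π {w | kw (w, (1 / 2, 1)) ∈ A} + 1 / 2 * π {w | kw (w, (2, 1)) ∈ A} := by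
  rw [Measure.map_apply kw_meas hA, Measure.prod_apply_symm (kw_meas hA), lintegral_prod,
    mS, lintegral_add_measure, lintegral_smul_measure, lintegral_smul_measure]
  · simp only [lintegral_dirac, smul_eq_mul]; rfl
  · exact (measurable_measure_prodMk_right (kw_meas hA)).aemeasurable

theorem int_mS (f : ℝ → ℝ) : ∫ x, f x ∂mS = (f (1 / 2) + f 2) / 2 := by
  rw [mS, integral_add_measure, integral_smul_measure, integral_smul_measure]
  · simp; ring
  · exact (integrable_dirac (by simp)).smul_measure (by simp)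
  · exact (integrable_dirac (by simp)).smul_measure (by simp)

theorem stat_zero (π : Measure (ℝ × ℝ)) (h : Stationary mS (Measure.dirac 1) π) :
    ∀ᵐ w ∂π, w.1 = 0 := by
  obtain ⟨h1, h2⟩ := h
  let A : ℕ → Set (ℝ × ℝ) := fun m => {w | w.1 ≤ m / 2 ∧ w.2 ≤ m / 2 + 1}
  have hA : ∀ m, MeasurableSet (A m) := fun m =>
    (measurableSet_le measurable_fst measurable_const).inter
      (measurableSet_le measurable_snd measurable_const)
  have key : ∀ m, π (A (m + 1)) ≤ π (A m) := by
    intro m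
    have hm : (0 : ℝ) ≤ m := Nat.cast_nonneg m
    have e := step_apply π (A m) (hA m)
    rw [h2] at e
    have a1 : π (A (m + 1)) ≤ π {w | kw (w, (1 / 2, 1)) ∈ A m} := measure_mono fun w hw => by
      simp only [A, kw, Set.mem_ofPred_eq] at hw ⊢
      push_cast at hw
      exact ⟨(min_le_left _ _).trans (max_le (by linarith) (by linarith)),
        max_le (max_le (by linarith) (by linarith)) (max_le (by linarith) (by linarith))⟩
    have a2 : π (A m) ≤ π {w | kw (w, (2, 1)) ∈ A m} := measure_mono fun w hw => by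
      simp only [A, kw, Set.mem_ofPred_eq] at hw ⊢
      exact ⟨(min_le_right _ _).trans (max_le (by linarith) (by linarith)),
        max_le (max_le (by linarith) (by linarith)) (max_le (by linarith) (by linarith))⟩
    have a3 : 1 / 2 * π (A (m + 1)) + 1 / 2 * π (A m) ≤ 1 / 2 * π (A m) + 1 / 2 * π (A m) := by
      rw [← add_mul, ENNReal.add_halves, one_mul]
      exact le_of_le_of_eq (by gcongr) e.symm
    have a4 := ENNReal.le_of_add_le_add_right
      (ENNReal.mul_ne_top (by simp) (measure_ne_top _ _)) a3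
    exact (ENNReal.mul_le_mul_iff_right (by simp) (by simp)).mp a4
  have key2 : ∀ m, π (A m) ≤ π (A 0) := by
    intro m
    induction m with
    | zero => exact le_rfl
    | succ m ih => exact (key m).trans ih
  have hmono : Monotone A := fun m n hmn w hw => by
    have : (m : ℝ) ≤ n := by exact_mod_cast hmn
    simp only [A, Set.mem_ofPred_eq] at hw ⊢
    constructor <;> linarith [hw.1, hw.2]
  have hU : ⋃ m, A m = Set.univ := Set.eq_univ_of_forall fun w => by
    obtain ⟨m, hm⟩ := exists_nat_ge (2 * max w.1 w.2)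
    refine Set.mem_iUnion.mpr ⟨m, ?_⟩
    simp only [A, Set.mem_ofPred_eq]
    constructor <;> linarith [le_max_left w.1 w.2, le_max_right w.1 w.2]
  have h3 : π (A 0) = 1 := le_antisymm prob_le_one (by
    rw [← measure_univ (μ := π), ← hU, hmono.measure_iUnion]
    exact iSup_le key2)
  have h4 : ∀ᵐ w ∂π, w ∈ A 0 := (prob_compl_eq_zero_iff (hA 0)).mpr h3
  have h5 : ∀ᵐ w ∂π, 0 ≤ w.1 := by
    rw [← h2]
    refine (ae_map_iff kw_meas.aemeasurable (measurableSet_le measurable_const measurable_fst)).mpr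
      (Filter.Eventually.of_forall fun x => ?_)
    exact le_min (le_max_right _ _) (le_max_right _ _)
  filter_upwards [h4, h5] with w a b
  exact le_antisymm (by simpa using a.1) b

theorem stat_exists : ∃ π, Stationary mS (Measure.dirac 1) π := by
  have : IsProbabilityMeasure ((1 / 2 : ENNReal) • Measure.dirac ((0, 0) : ℝ × ℝ)
      + (1 / 2 : ENNReal) • Measure.dirac ((0, 1) : ℝ × ℝ)) :=
    ⟨by simp [ENNReal.inv_two_add_inv_two]⟩
  refine ⟨_, this, Measure.ext fun A hA => ?_⟩
  classical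
  rw [step_apply _ A hA]
  have m1 : MeasurableSet {w : ℝ × ℝ | kw (w, (1 / 2, 1)) ∈ A} :=
    (kw_meas.comp measurable_prodMk_right) hA
  have m2 : MeasurableSet {w : ℝ × ℝ | kw (w, (2, 1)) ∈ A} :=
    (kw_meas.comp measurable_prodMk_right) hA
  have e1 : kw ((0, 0), (1 / 2, 1)) = (0, 0) := by norm_num [kw]
  have e2 : kw ((0, 1), (1 / 2, 1)) = (0, 0) := by norm_num [kw]
  have e3 : kw ((0, 0), (2, 1)) = (0, 1) := by norm_num [kw]
  have e4 : kw ((0, 1), (2, 1)) = (0, 1) := by norm_num [kw]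
  simp only [Measure.add_apply, Measure.smul_apply, smul_eq_mul, Measure.dirac_apply' _ m1,
    Measure.dirac_apply' _ m2, Measure.dirac_apply' _ hA, Set.indicator_apply, Set.mem_ofPred_eq,
    e1, e2, e3, e4, Pi.one_apply]
  rw [← add_mul, ← add_mul, ENNReal.add_halves, one_mul, one_mul]

theorem result : ∃ (μS μT : Measure ℝ) (ES ET ρ : ℝ),
    IsProbabilityMeasure μS ∧ IsProbabilityMeasure μT ∧ (∀ᵐ s ∂μS, 0 < s) ∧ (∀ᵐ t ∂μT, 0 < t) ∧
    MemLp id 2 μS ∧ MemLp id 2 μT ∧ ES = ∫ s, s ∂μS ∧ ET = ∫ t, t ∂μT ∧ ρ = ES / (2 * ET) ∧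
    1 - 1 / 2 ≤ ρ ∧ ρ < 1 ∧ (∃ π, Stationary μS μT π) ∧
    ∀ π, Stationary μS μT π → Integrable (fun w => w.1) π ∧
      2 * 2 ^ 2 * ρ * (1 - ρ) * ET * ∫ w, w.1 ∂π < (1 - 2 * (1 - ρ)) *
        max (∫ s, s ^ 2 ∂μS - (2 * 2 - 1) * ES * ET + 2 * (2 - 1) * ET ^ 2) 0 := by
  refine ⟨mS, Measure.dirac 1, 5 / 4, 1, 5 / 8, inferInstance, inferInstance, ?_, ?_, ?_, ?_, ?_, ?_,
    by norm_num, by norm_num, by norm_num, stat_exists, fun π h => ?_⟩
  · rw [mS, ae_add_measure_iff]
    constructor <;> refine Measure.ae_smul_measure ?_ _ <;> simp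
  · simp
  · refine MemLp.of_bound aestronglyMeasurable_id 2 ?_
    rw [mS, ae_add_measure_iff]
    constructor <;> refine Measure.ae_smul_measure ?_ _ <;> norm_num
  · exact MemLp.of_bound aestronglyMeasurable_id 1 (by simp)
  · rw [int_mS]; norm_num
  · simp
  · have h0 := stat_zero π h
    refine ⟨(integrable_zero _ _ _).congr (Filter.EventuallyEq.symm h0), ?_⟩
    rw [integral_congr_ae h0, int_mS]
    norm_num

end Pool.Agent.Results.MP_97409a_pr.TwoServer
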